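import Pool.Agent.U367.DR.Stm

set_option autoImplicit false
set_option linter.unusedSectionVars false

namespace Pool.Agent.U448.DR

open Pool.Agent.W292.FM Pool.Agent.U367.DR Polynomial

variable {p : ℕ} [hp : Fact p.Prime]

/-- the minimal polynomial of a primitive `p ^ (n + 1)`-th root of unity -/
theorem minpoly_eq {z : PadicAlgCl p} {n : ℕ} (hz : IsPrimitiveRoot z (p ^ (n + 1))) :
    minpoly ℚ_[p] z = cyclotomic (p ^ (n + 1)) ℚ_[p] := by
  have hp0 : 0 < p ^ (n + 1) := pow_pos hp.out.pos _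
  have hint : IsIntegral ℚ_[p] z := Algebra.IsIntegral.isIntegral z
  have hroot : aeval z (cyclotomic (p ^ (n + 1)) ℚ_[p]) = 0 := by
    rw [aeval_def, eval₂_eq_eval_map, map_cyclotomic]
    exact (isRoot_cyclotomic_iff_charZero hp0).2 hz
  have hdvd : minpoly ℚ_[p] z ∣ cyclotomic (p ^ (n + 1)) ℚ_[p] := minpoly.dvd _ _ hroot
  have hmon := minpoly.monic hint
  have hmonc := cyclotomic.monic (p ^ (n + 1)) ℚ_[p]
  have hdeg : (cyclotomic (p ^ (n + 1)) ℚ_[p]).natDegree ≤ (minpoly ℚ_[p] z).natDegree := by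
    by_contra hlt
    push Not at hlt
    rw [natDegree_cyclotomic] at hlt
    set f := minpoly ℚ_[p] z with hf
    set g := taylor (1 : ℚ_[p]) f with hg
    have hgdeg : g.natDegree = f.natDegree := natDegree_taylor f 1
    have hsum : ∑ j ∈ Finset.range (Nat.totient (p ^ (n + 1))),
        algebraMap ℚ_[p] (PadicAlgCl p) (g.coeff j) * (z - 1) ^ j = 0 := by
      have h1 : aeval (z - 1) g = 0 := by
        have : aeval (z - 1) g = aeval z f := by
          rw [hg, taylor_apply, aeval_comp]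
          simp
        rw [this, hf, minpoly.aeval]
      rw [aeval_eq_sum_range' (n := Nat.totient (p ^ (n + 1))) (by rw [hgdeg]; exact hlt)] at h1
      simpa [Algebra.smul_def] using h1
    have h2 := norm_term_le hz (fun j => g.coeff j) hlt
    rw [hsum, norm_zero] at h2
    have h3 := norm_le_zero_iff.1 h2
    have hz1 : z - 1 ≠ 0 := by
      intro h0
      have h4 := norm_sub_one_pow_totient hz
      rw [h0, norm_zero, zero_pow (Nat.totient_pos.2 hp0).ne'] at h4
      have : (0 : ℝ) < (p : ℝ)⁻¹ := inv_pos.2 (by exact_mod_cast hp.out.pos)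
      linarith
    have h5 : g.coeff f.natDegree = 0 := by
      rcases mul_eq_zero.1 h3 with h | h
      · exact (map_eq_zero _).1 h
      · exact absurd h (pow_ne_zero _ hz1)
    have h6 : g.coeff f.natDegree = 1 := by
      rw [hg, coeff_taylor_natDegree]
      exact hmon
    rw [h6] at h5
    exact one_ne_zero h5
  exact (eq_of_monic_of_dvd_of_natDegree_le hmon hmonc hdvd hdeg).symm

/-- the normalised trace -/
noncomputable abbrev T : PadicAlgCl p →ₗ[ℚ_[p]] ℚ_[p] :=
  Algebra.normalizedTrace ℚ_[p] (PadicAlgCl p)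

theorem T_eq_of_primitive {z w : PadicAlgCl p} {n : ℕ} (hz : IsPrimitiveRoot z (p ^ (n + 1)))
    (hw : IsPrimitiveRoot w (p ^ (n + 1))) : T z = T w := by
  rw [T, Algebra.normalizedTrace_minpoly, Algebra.normalizedTrace_minpoly, minpoly_eq hz,
    minpoly_eq hw]

theorem T_one : T (1 : PadicAlgCl p) = 1 := by
  have := Algebra.normalizedTrace_algebraMap_apply_eq_self ℚ_[p] (PadicAlgCl p) 1
  simpa using this

/-- `T w = 0` for a primitive root of unity of order `p ^ (m + 2)` -/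
theorem T_zero {w : PadicAlgCl p} {m : ℕ} (hw : IsPrimitiveRoot w (p ^ (m + 2))) : T w = 0 := by
  have hpr := hp.out
  have hprim : ∀ j : ℕ, IsPrimitiveRoot (w * (w ^ p ^ (m + 1)) ^ j) (p ^ (m + 1 + 1)) := by
    intro j
    have : w * (w ^ p ^ (m + 1)) ^ j = w ^ (1 + p ^ (m + 1) * j) := by
      rw [pow_add w 1, pow_one, pow_mul w]
    rw [this]
    refine hw.pow_of_coprime _ ?_
    refine Nat.Coprime.pow_right _ ?_
    rw [Nat.coprime_comm, Nat.Prime.coprime_iff_not_dvd hpr]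
    intro hd
    have h1 : p ∣ p ^ (m + 1) * j := (dvd_pow_self p (Nat.succ_ne_zero m)).mul_right j
    have h2 : p ∣ 1 := (Nat.dvd_add_left h1).1 hd
    exact hpr.one_lt.ne' (Nat.dvd_one.1 h2)
  have hz : IsPrimitiveRoot (w ^ p ^ (m + 1)) p := by
    have := hw.pow (pow_pos hpr.pos _) (a := p ^ (m + 1)) (b := p) (pow_succ _ _)
    exact this
  have h0 : ∑ j ∈ Finset.range p, w * (w ^ p ^ (m + 1)) ^ j = 0 := by
    rw [← Finset.mul_sum, hz.geom_sum_eq_zero hpr.one_lt, mul_zero]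
  have h1 : ∑ j ∈ Finset.range p, T (w * (w ^ p ^ (m + 1)) ^ j) = 0 := by
    rw [← map_sum, h0, map_zero]
  have h2 : ∀ j ∈ Finset.range p, T (w * (w ^ p ^ (m + 1)) ^ j) = T w := fun j _ =>
    T_eq_of_primitive (hprim j) hw
  rw [Finset.sum_congr rfl h2, Finset.sum_const, Finset.card_range, nsmul_eq_mul] at h1
  rcases mul_eq_zero.1 h1 with h | h
  · exact absurd h (by exact_mod_cast hpr.ne_zero)
  · exact h

/-- `(p - 1) T w = - 1` for a primitive root of unity of order `p` -/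
theorem T_prime {w : PadicAlgCl p} (hw : IsPrimitiveRoot w p) : ((p - 1 : ℕ) : ℚ_[p]) * T w = -1 := by
  have hpr := hp.out
  have hw' : IsPrimitiveRoot w (p ^ (0 + 1)) := by simpa using hw
  have h0 : ∑ j ∈ Finset.range p, w ^ j = 0 := hw.geom_sum_eq_zero hpr.one_lt
  obtain ⟨q, hq⟩ : ∃ q, p = q + 1 := ⟨p - 1, by have := hpr.one_lt; omega⟩
  have h1 : ∑ j ∈ Finset.range q, w ^ (j + 1) = -1 := by
    have h0' : ∑ j ∈ Finset.range (q + 1), w ^ j = 0 := by
      have e : Finset.range (q + 1) = Finset.range p := congrArg Finset.range hq.symm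
      rw [e]; exact h0
    rw [Finset.sum_range_succ'] at h0'
    linear_combination h0'
  have h2 : ∑ j ∈ Finset.range q, T (w ^ (j + 1)) = -1 := by
    rw [← map_sum, h1, map_neg, T_one]
  have h3 : ∀ j ∈ Finset.range q, T (w ^ (j + 1)) = T w := by
    intro j hj
    refine T_eq_of_primitive (n := 0) ?_ hw'
    refine hw'.pow_of_coprime _ ?_
    refine Nat.Coprime.pow_right _ ?_
    rw [Nat.coprime_comm, Nat.Prime.coprime_iff_not_dvd hpr]
    intro hd
    have := Nat.le_of_dvd (by omega) hd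
    have := Finset.mem_range.1 hj
    omega
  rw [Finset.sum_congr rfl h3, Finset.sum_const, Finset.card_range, nsmul_eq_mul] at h2
  have : p - 1 = q := by omega
  rw [this]
  exact h2

theorem norm_T_primitive {w : PadicAlgCl p} {m : ℕ} (hw : IsPrimitiveRoot w (p ^ m)) :
    ‖T w‖ ≤ 1 := by
  rcases m with _ | _ | m
  · have : w = 1 := by simpa using hw
    rw [this, T_one, norm_one]
  · have h := T_prime (w := w) (by simpa using hw)
    have h1 := congrArg norm h
    rw [norm_mul, norm_neg, norm_one] at h1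
    have h2 : ‖((p - 1 : ℕ) : ℚ_[p])‖ = 1 := by
      rw [Padic.norm_natCast_eq_one_iff]
      exact (Nat.coprime_self_sub_right hp.out.one_le).mpr p.coprime_one_right
    rw [h2, one_mul] at h1
    exact h1.le
  · rw [T_zero hw, norm_zero]
    exact zero_le_one

theorem norm_T_pow {z : PadicAlgCl p} {n : ℕ} (hz : IsPrimitiveRoot z (p ^ n)) (j : ℕ) :
    ‖T (z ^ j)‖ ≤ 1 := by
  have h : (z ^ j) ^ (p ^ n) = 1 := by rw [← pow_mul, mul_comm, pow_mul, hz.pow_eq_one, one_pow]
  have h1 : orderOf (z ^ j) ∣ p ^ n := orderOf_dvd_of_pow_eq_one h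
  obtain ⟨m, _, hm⟩ := (Nat.dvd_prime_pow hp.out).1 h1
  have h2 : IsPrimitiveRoot (z ^ j) (p ^ m) := by
    rw [← hm]
    exact IsPrimitiveRoot.orderOf _
  exact norm_T_primitive h2

theorem norm_T_sub_pow {z : PadicAlgCl p} {n : ℕ} (hz : IsPrimitiveRoot z (p ^ n)) (i : ℕ) :
    ∀ j : ℕ, ‖T ((z - 1) ^ i * z ^ j)‖ ≤ 1 := by
  induction i with
  | zero => intro j; simpa using norm_T_pow hz j
  | succ i ih =>
    intro j
    have : (z - 1) ^ (i + 1) * z ^ j = (z - 1) ^ i * z ^ (j + 1) - (z - 1) ^ i * z ^ j := by ring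
    rw [this, map_sub, sub_eq_add_neg]
    refine (IsUltrametricDist.norm_add_le_max _ _).trans (max_le (ih (j + 1)) ?_)
    rw [norm_neg]
    exact ih j

theorem exists_coeff {z : PadicAlgCl p} {n : ℕ} (hz : IsPrimitiveRoot z (p ^ (n + 1)))
    {x : PadicAlgCl p} (hx : x ∈ IntermediateField.adjoin ℚ_[p] {z}) :
    ∃ a : ℕ → ℚ_[p], x = ∑ j ∈ Finset.range (Nat.totient (p ^ (n + 1))),
        algebraMap ℚ_[p] (PadicAlgCl p) (a j) * (z - 1) ^ j := by
  have hp0 : 0 < p ^ (n + 1) := pow_pos hp.out.pos _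
  have hint : IsIntegral ℚ_[p] z := Algebra.IsIntegral.isIntegral z
  have hx' : x ∈ Algebra.adjoin ℚ_[p] {z} := by
    rw [← IntermediateField.adjoin_simple_toSubalgebra_of_isAlgebraic hint.isAlgebraic]
    exact hx
  rw [Algebra.adjoin_singleton_eq_range_aeval] at hx'
  obtain ⟨f, hf⟩ := hx'
  have hf' : aeval z f = x := hf
  have hmonc := cyclotomic.monic (p ^ (n + 1)) ℚ_[p]
  have hroot : aeval z (cyclotomic (p ^ (n + 1)) ℚ_[p]) = 0 := by
    rw [aeval_def, eval₂_eq_eval_map, map_cyclotomic]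
    exact (isRoot_cyclotomic_iff_charZero hp0).2 hz
  set r := f %ₘ cyclotomic (p ^ (n + 1)) ℚ_[p] with hr
  have hr1 : aeval z r = x := by
    rw [← hf']
    conv_rhs => rw [← modByMonic_add_div f (cyclotomic (p ^ (n + 1)) ℚ_[p])]
    rw [map_add, map_mul, hroot, zero_mul, add_zero]
  have hrdeg : r.natDegree < Nat.totient (p ^ (n + 1)) := by
    have h1 : (cyclotomic (p ^ (n + 1)) ℚ_[p]) ≠ 1 := by
      intro h
      have h2 := natDegree_cyclotomic (p ^ (n + 1)) ℚ_[p]
      rw [h, natDegree_one] at h2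
      exact (Nat.totient_pos.2 hp0).ne h2
    have h3 := natDegree_modByMonic_lt f hmonc h1
    rwa [natDegree_cyclotomic] at h3
  refine ⟨fun j => (taylor (1 : ℚ_[p]) r).coeff j, ?_⟩
  have h1 : aeval (z - 1) (taylor (1 : ℚ_[p]) r) = x := by
    rw [← hr1, taylor_apply, aeval_comp]
    simp
  rw [aeval_eq_sum_range' (n := Nat.totient (p ^ (n + 1)))
    (by rw [natDegree_taylor]; exact hrdeg)] at h1
  rw [← h1]
  exact Finset.sum_congr rfl fun j _ => by rw [Algebra.smul_def]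

theorem t_TRB : S_TRB := by
  intro p hp n z hz x hx
  obtain ⟨a, ha⟩ := exists_coeff hz hx
  have hp0 : (0 : ℝ) < p := by exact_mod_cast hp.out.pos
  have hz1 : ‖z‖ = 1 := norm_rootOfUnity (pow_ne_zero _ hp.out.ne_zero) hz.pow_eq_one
  have hz2 : ‖z - 1‖ ≤ 1 := by
    rw [sub_eq_add_neg]
    refine (IsUltrametricDist.norm_add_le_max _ _).trans ?_
    rw [hz1, norm_neg, norm_one, max_self]
  have hcoef : ∀ i, i < Nat.totient (p ^ (n + 1)) → ‖a i‖ ≤ p * ‖x‖ := by
    intro i hi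
    have h1 := norm_term_le hz a hi
    rw [← ha, norm_mul, norm_pow] at h1
    have h2 : ‖algebraMap ℚ_[p] (PadicAlgCl p) (a i)‖ = ‖a i‖ := norm_algebraMap' _ _
    rw [h2] at h1
    have h3 : (p : ℝ)⁻¹ ≤ ‖z - 1‖ ^ i := by
      rw [← norm_sub_one_pow_totient hz]
      exact pow_le_pow_of_le_one (norm_nonneg _) hz2 hi.le
    have h4 : ‖a i‖ * (p : ℝ)⁻¹ ≤ ‖x‖ :=
      (mul_le_mul_of_nonneg_left h3 (norm_nonneg _)).trans h1
    have h5 : ‖a i‖ = p * (‖a i‖ * (p : ℝ)⁻¹) := by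
      field_simp
    rw [h5]
    exact mul_le_mul_of_nonneg_left h4 hp0.le
  have hT : T x = ∑ j ∈ Finset.range (Nat.totient (p ^ (n + 1))), a j * T ((z - 1) ^ j) := by
    conv_lhs => rw [ha]
    rw [map_sum]
    refine Finset.sum_congr rfl fun j _ => ?_
    rw [← Algebra.smul_def, map_smul, smul_eq_mul]
  change ‖T x‖ ≤ _
  rw [hT]
  refine IsUltrametricDist.norm_sum_le_of_forall_le_of_nonneg (by positivity) ?_
  intro j hj
  rw [norm_mul]
  have h1 : ‖T ((z - 1) ^ j)‖ ≤ 1 := by simpa using norm_T_sub_pow hz j 0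
  calc ‖a j‖ * ‖T ((z - 1) ^ j)‖ ≤ (p * ‖x‖) * 1 :=
        mul_le_mul (hcoef j (Finset.mem_range.1 hj)) h1 (norm_nonneg _) (by positivity)
    _ = p * ‖x‖ := mul_one _

end Pool.Agent.U448.DR
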